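import Pool.Agent.helper60.DA.SpecJ
import Mathlib.NumberTheory.JacobiSum.Basic

/-!
# Row dj:CUB (MP_fb2c2a_nt): the cubic Jacobi sum modulo `p ^ 2`
-/

set_option autoImplicit false

namespace Pool.Agent.helper60.DA

open Polynomial Finset Pool.Agent.helper60.DK

section

variable {p : ℕ} [hp : Fact p.Prime]

/-- sums over the nonzero elements as sums over powers of a generator -/
theorem CUB_sum {g : (ZMod p)ˣ} (hg : ∀ x, x ∈ Subgroup.zpowers g) {R : Type*} [AddCommMonoid R]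
    (G : ZMod p → R) : ∑ t ∈ univ.erase (0 : ZMod p), G t =
      ∑ k ∈ range (p - 1), G ((g : ZMod p) ^ k) := by
  have hord : orderOf g = p - 1 := by
    rw [orderOf_eq_card_of_forall_mem_zpowers hg, Nat.card_eq_fintype_card, ZMod.card_units]
  symm
  refine Finset.sum_bij (fun k _ => (g : ZMod p) ^ k) ?_ ?_ ?_ ?_
  · intro k _
    rw [Finset.mem_erase]
    exact ⟨pow_ne_zero _ g.ne_zero, Finset.mem_univ _⟩
  · intro k hk l hl h
    rw [Finset.mem_range, ← hord] at hk hl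
    refine pow_injOn_Iio_orderOf hk hl ?_
    apply Units.ext
    simpa using h
  · intro t ht
    have ht0 : t ≠ 0 := Finset.ne_of_mem_erase ht
    have h1 := hg (Units.mk0 t ht0)
    rw [mem_zpowers_iff_mem_range_orderOf, Finset.mem_image] at h1
    obtain ⟨k, hk, hk2⟩ := h1
    refine ⟨k, ?_, ?_⟩
    · rw [← hord]; exact hk
    · have h3 : g ^ k = Units.mk0 t ht0 := hk2
      have := congrArg (fun u : (ZMod p)ˣ => (u : ZMod p)) h3
      simpa using this
  · intro k _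
    rfl

/-- the integers `a_r` -/
noncomputable def CUB_a (g : (ZMod p)ˣ) (r : ℕ) : ℤ :=
  ∑ k ∈ (range (p - 1)).filter (fun k => k % 3 = r), quadraticChar (ZMod p) (1 - (g : ZMod p) ^ k)

theorem CUB_split (g : (ZMod p)ˣ) {R : Type*} [CommRing R] (z : R) (hz : z ^ 3 = 1) :
    ∑ k ∈ range (p - 1), z ^ k * ((quadraticChar (ZMod p) (1 - (g : ZMod p) ^ k) : ℤ) : R) =
      (CUB_a g 0 : R) + CUB_a g 1 * z + CUB_a g 2 * z ^ 2 := by
  rw [← Finset.sum_fiberwise_of_maps_to (g := fun k => k % 3) (t := range 3)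
    (fun k _ => Finset.mem_range.2 (Nat.mod_lt _ (by norm_num)))]
  have h : ∀ r : ℕ, ∑ k ∈ (range (p - 1)).filter (fun k => k % 3 = r),
      z ^ k * ((quadraticChar (ZMod p) (1 - (g : ZMod p) ^ k) : ℤ) : R) = CUB_a g r * z ^ r := by
    intro r
    unfold CUB_a
    rw [Int.cast_sum, Finset.sum_mul]
    refine Finset.sum_congr rfl fun k hk => ?_
    rw [Finset.mem_filter] at hk
    have h1 : z ^ k = z ^ r := by
      rw [pow_eq_pow_mod k hz, hk.2]
    rw [h1, mul_comm]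
  rw [Finset.sum_range_succ, Finset.sum_range_succ, Finset.sum_range_succ, Finset.sum_range_zero,
    h, h, h]
  ring

/-- parity of `a_1`, `a_2` -/
theorem CUB_even {g : (ZMod p)ˣ} (hg : ∀ x, x ∈ Subgroup.zpowers g) (h6 : p % 6 = 1) (r : ℕ)
    (hr : r = 1 ∨ r = 2) : ∃ b : ℤ, CUB_a g r = 2 * b := by
  have hord : orderOf g = p - 1 := by
    rw [orderOf_eq_card_of_forall_mem_zpowers hg, Nat.card_eq_fintype_card, ZMod.card_units]
  have hval : ∀ k ∈ (range (p - 1)).filter (fun k => k % 3 = r),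
      ∃ c : ℤ, quadraticChar (ZMod p) (1 - (g : ZMod p) ^ k) = 2 * c + 1 := by
    intro k hk
    rw [Finset.mem_filter, Finset.mem_range] at hk
    have hk0 : k ≠ 0 := by rintro rfl; omega
    have hne : (1 - (g : ZMod p) ^ k) ≠ 0 := by
      intro h
      have h1 : (g : ZMod p) ^ k = 1 := (sub_eq_zero.1 h).symm
      have h2 : g ^ k = 1 := by
        apply Units.ext
        simpa using h1
      exact pow_ne_one_of_lt_orderOf hk0 (by rw [hord]; exact hk.1) h2
    rcases quadraticChar_dichotomy hne with h | h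
    · exact ⟨0, by rw [h]; norm_num⟩
    · exact ⟨-1, by rw [h]; norm_num⟩
  choose! c hc using hval
  have hcard : ((range (p - 1)).filter (fun k => k % 3 = r)).card = 2 * (p / 6) := by
    have hp1 : p - 1 = 3 * (2 * (p / 6)) := by omega
    rw [hp1]
    have h3 : ∀ n : ℕ, ((range (3 * n)).filter (fun k => k % 3 = r)).card = n := by
      intro n
      induction n with
      | zero => simp
      | succ n ih =>
        have e : 3 * (n + 1) = 3 * n + 1 + 1 + 1 := by ring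
        rw [e, Finset.range_add_one, Finset.range_add_one, Finset.range_add_one,
          Finset.filter_insert, Finset.filter_insert, Finset.filter_insert]
        rcases hr with rfl | rfl
        · rw [if_neg (by omega), if_pos (by omega), if_neg (by omega),
            Finset.card_insert_of_notMem (by simp), ih]
        · rw [if_pos (by omega), if_neg (by omega), if_neg (by omega),
            Finset.card_insert_of_notMem (by simp), ih]
    exact h3 _
  refine ⟨∑ k ∈ (range (p - 1)).filter (fun k => k % 3 = r), c k + (p / 6 : ℕ), ?_⟩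
  unfold CUB_a
  rw [Finset.sum_congr rfl hc, Finset.sum_add_distrib, ← Finset.mul_sum, Finset.sum_const, hcard,
    nsmul_eq_mul]
  push_cast
  ring

/-- the norm equation -/
theorem CUB_norm {g : (ZMod p)ˣ} (hg : ∀ x, x ∈ Subgroup.zpowers g) (h3p : 3 < p)
    (h6 : p % 6 = 1) : CUB_a g 0 ^ 2 + CUB_a g 1 ^ 2 + CUB_a g 2 ^ 2 - CUB_a g 0 * CUB_a g 1 -
      CUB_a g 1 * CUB_a g 2 - CUB_a g 2 * CUB_a g 0 = (p : ℤ) := by
  classical
  obtain ⟨ψ, hψ⟩ := MulChar.exists_mulChar_orderOf (ZMod p) (n := 3) (R := ℂ)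
    (by rw [ZMod.card]; omega) (Complex.isPrimitiveRoot_exp 3 (by norm_num))
  set φ : MulChar (ZMod p) ℂ := (quadraticChar (ZMod p)).ringHomComp (Int.castRingHom ℂ) with hφ
  have hψ3 : ψ ^ 3 = 1 := by rw [← hψ]; exact pow_orderOf_eq_one ψ
  have hψ1 : ψ ≠ 1 := by
    intro h
    rw [h, orderOf_one] at hψ
    norm_num at hψ
  have hchar : ringChar (ZMod p) ≠ 2 := by
    rw [ZMod.ringChar_zmod_n]; omega
  have hφ1 : φ ≠ 1 := by
    intro h
    obtain ⟨a, ha⟩ := quadraticChar_exists_neg_one hchar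
    have h1 : φ a = ((quadraticChar (ZMod p) a : ℤ) : ℂ) := rfl
    rw [ha] at h1
    have ha0 : IsUnit a := by
      by_contra hna
      have h2 := MulChar.map_nonunit (quadraticChar (ZMod p)) hna
      rw [ha] at h2
      norm_num at h2
    rw [h, MulChar.one_apply ha0] at h1
    norm_num at h1
  have hφ2 : φ ^ 2 = 1 := by
    have h2 : (quadraticChar (ZMod p)) ^ 2 = 1 := (quadraticChar_isQuadratic (ZMod p)).sq_eq_one
    rw [hφ, sq, ← MulChar.ringHomComp_mul, ← sq, h2, MulChar.ringHomComp_one]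
  have hψφ : ψ * φ ≠ 1 := by
    intro h
    have h1 : (ψ * φ) ^ 2 = 1 := by rw [h, one_pow]
    rw [mul_pow, hφ2, mul_one] at h1
    apply hψ1
    calc ψ = ψ ^ 3 * (ψ ^ 2)⁻¹ := by
          rw [pow_succ, mul_comm (ψ ^ 2) ψ, mul_assoc, mul_inv_cancel, mul_one]
      _ = 1 := by rw [hψ3, h1, inv_one, mul_one]
  have hrc : ringChar ℂ ≠ ringChar (ZMod p) := by
    rw [ZMod.ringChar_zmod_n, ringChar.eq_zero]
    omega
  have hJ := jacobiSum_mul_jacobiSum_inv hrc hψ1 hφ1 hψφ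
  have hφinv : φ⁻¹ = φ := by
    rw [inv_eq_iff_mul_eq_one, ← sq, hφ2]
  have hsum : ∀ θ : MulChar (ZMod p) ℂ, θ ^ 3 = 1 → jacobiSum θ φ =
      (CUB_a g 0 : ℂ) + CUB_a g 1 * θ g + CUB_a g 2 * θ g ^ 2 := by
    intro θ hθ
    have hz : θ (g : ZMod p) ^ 3 = 1 := by
      rw [← MulChar.pow_apply_coe, hθ, MulChar.one_apply_coe]
    rw [← CUB_split g (θ g) hz]
    unfold jacobiSum
    rw [← Finset.add_sum_erase univ _ (Finset.mem_univ (0 : ZMod p)),
      MulChar.map_zero, zero_mul, zero_add, CUB_sum hg]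
    refine Finset.sum_congr rfl fun k _ => ?_
    rw [map_pow]
    rfl
  have hψi3 : ψ⁻¹ ^ 3 = 1 := by rw [inv_pow, hψ3, inv_one]
  rw [hφinv, hsum ψ hψ3, hsum ψ⁻¹ hψi3, ZMod.card] at hJ
  have hzz : ψ g * ψ⁻¹ g = 1 := by
    rw [← MulChar.mul_apply, mul_inv_cancel, MulChar.one_apply_coe]
  have hz3 : ψ g ^ 3 = 1 := by
    rw [← MulChar.pow_apply_coe, hψ3, MulChar.one_apply_coe]
  have hz1 : ψ g ≠ 1 := by
    intro h
    apply hψ1
    ext u
    have h1 := hg u
    rw [mem_zpowers_iff_mem_range_orderOf, Finset.mem_image] at h1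
    obtain ⟨k, -, hk⟩ := h1
    have hk' : g ^ k = u := hk
    rw [← hk', Units.val_pow_eq_pow_val, map_pow, h, one_pow, MulChar.one_apply]
    exact (g ^ k).isUnit
  generalize ψ (g : ZMod p) = z at *
  generalize ψ⁻¹ (g : ZMod p) = z' at *
  have hz' : z' = z ^ 2 := by
    calc z' = z ^ 3 * z' := by rw [hz3, one_mul]
      _ = z ^ 2 * (z * z') := by ring
      _ = z ^ 2 := by rw [hzz, mul_one]
  have hzs : z ^ 2 = -1 - z := by
    have h1 : (z - 1) * (z ^ 2 + z + 1) = 0 := by linear_combination hz3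
    rcases mul_eq_zero.1 h1 with h2 | h2
    · exact absurd (sub_eq_zero.1 h2) hz1
    · linear_combination h2
  have hfin : ((CUB_a g 0 ^ 2 + CUB_a g 1 ^ 2 + CUB_a g 2 ^ 2 - CUB_a g 0 * CUB_a g 1 -
      CUB_a g 1 * CUB_a g 2 - CUB_a g 2 * CUB_a g 0 : ℤ) : ℂ) = ((p : ℤ) : ℂ) := by
    push_cast
    rw [hz'] at hJ
    rw [← hJ]
    have hz4 : (z ^ 2) ^ 2 = z := by
      calc (z ^ 2) ^ 2 = z ^ 3 * z := by ring
        _ = z := by rw [hz3, one_mul]
    rw [hz4]
    generalize (CUB_a g 0 : ℂ) = a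
    generalize (CUB_a g 1 : ℂ) = b
    generalize (CUB_a g 2 : ℂ) = c
    have e : (a + b * z + c * z ^ 2) * (a + b * z ^ 2 + c * z) =
        a ^ 2 + b ^ 2 * z ^ 3 + c ^ 2 * z ^ 3 + (a * b + a * c) * (z + z ^ 2) +
          b * c * (z ^ 2 + z * z ^ 3) := by ring
    rw [e, hz3, hzs]
    ring
  exact_mod_cast hfin

end

theorem CUB (hOM : OM_stmt) (hPS : PS_stmt) : CUB_stmt := by
  intro p hp h3 h6
  have : NeZero (p ^ 2) := neZero_sq
  obtain ⟨g, hg⟩ := IsCyclic.exists_generator (α := (ZMod p)ˣ)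
  obtain ⟨om1, om2, -, om4, -, om6, -⟩ := hOM p h3
  have hompow : ∀ (t : ZMod p) (k : ℕ), om p (t ^ k) = om p t ^ k := by
    intro t k
    induction k with
    | zero => rw [pow_zero, pow_zero, om2]
    | succ k ih => rw [pow_succ t k, pow_succ (om p t) k, om1, ih]
  have hf : p - 1 = 6 * (p / 6) := by omega
  have hf1 : 1 ≤ p / 6 := by omega
  set f := p / 6 with hfdef
  have hg0 : (g : ZMod p) ≠ 0 := g.ne_zero
  have hord : orderOf g = p - 1 := by
    rw [orderOf_eq_card_of_forall_mem_zpowers hg, Nat.card_eq_fintype_card, ZMod.card_units]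
  have homg : om p (g : ZMod p) ^ (6 * f) = 1 := by rw [← hf]; exact om4 _ hg0
  set ζ : ZMod (p ^ 2) := om p (g : ZMod p) ^ (4 * f) with hζ
  have hζ3 : ζ ^ 3 = 1 := by
    rw [hζ, ← pow_mul, show 4 * f * 3 = 6 * f * 2 by ring, pow_mul, homg, one_pow]
  have hζ2 : om p (g : ZMod p) ^ (2 * f) = ζ ^ 2 := by
    rw [hζ, ← pow_mul, show 4 * f * 2 = 6 * f + 2 * f by ring, pow_add, homg, one_mul]
  have hζ23 : (ζ ^ 2) ^ 3 = 1 := by
    rw [← pow_mul, mul_comm, pow_mul, hζ3, one_pow]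
  have hζs : ζ ^ 2 = -1 - ζ := by
    have hu : IsUnit (ζ - 1) := by
      apply isUnit_of_rd_ne_zero
      rw [map_sub, map_one, hζ, map_pow, om6]
      intro h
      have h1 : (g : ZMod p) ^ (4 * f) = 1 := sub_eq_zero.1 h
      have h2 : g ^ (4 * f) = 1 := by
        apply Units.ext
        simpa using h1
      exact pow_ne_one_of_lt_orderOf (by omega) (by rw [hord]; omega) h2
    have h1 : (ζ - 1) * (ζ ^ 2 + ζ + 1) = 0 := by linear_combination hζ3
    have h2 := (IsUnit.mul_right_eq_zero hu).1 h1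
    linear_combination h2
  set a := CUB_a g 0 with ha
  set b := CUB_a g 1 with hb
  set c := CUB_a g 2 with hc
  set α := ∑ t ∈ univ.erase (0 : ZMod p), om p t ^ (4 * f) * qc p (1 - t) with hα
  set β := ∑ t ∈ univ.erase (0 : ZMod p), om p t ^ (2 * f) * qc p (1 - t) with hβ
  have hα' : α = (a : ZMod (p ^ 2)) + b * ζ + c * ζ ^ 2 := by
    rw [hα, CUB_sum hg, ha, hb, hc, ← CUB_split g ζ hζ3]
    refine Finset.sum_congr rfl fun k _ => ?_
    rw [hompow, hζ, ← pow_mul, ← pow_mul, mul_comm k]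
    rfl
  have hβ' : β = (a : ZMod (p ^ 2)) + b * ζ ^ 2 + c * ζ := by
    have h1 : (ζ ^ 2) ^ 2 = ζ := by
      calc (ζ ^ 2) ^ 2 = ζ ^ 3 * ζ := by ring
        _ = ζ := by rw [hζ3, one_mul]
    have h2 := CUB_split g (ζ ^ 2) hζ23
    rw [h1] at h2
    rw [hβ, CUB_sum hg, ha, hb, hc, ← h2]
    refine Finset.sum_congr rfl fun k _ => ?_
    rw [hompow, ← hζ2, ← pow_mul, ← pow_mul, mul_comm k]
    rfl
  have hn := CUB_norm hg h3 h6
  obtain ⟨b', hb'⟩ := CUB_even hg h6 1 (Or.inl rfl)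
  obtain ⟨c', hc'⟩ := CUB_even hg h6 2 (Or.inr rfl)
  rw [← ha, ← hb, ← hc] at hn
  rw [← hb] at hb'
  rw [← hc] at hc'
  -- `β` is a multiple of `p`
  have hβ0 : rd p β = 0 := by
    rw [hβ, map_sum]
    have h1 : ∀ t ∈ univ.erase (0 : ZMod p), rd p (om p t ^ (2 * f) * qc p (1 - t)) =
        t ^ (2 * f) * (1 - t) ^ (3 * f) := by
      intro t _
      rw [map_mul, map_pow, om6]
      congr 1
      unfold qc
      rw [rd_intCast, quadraticChar_eq_pow_of_char_ne_two' (by rw [ZMod.ringChar_zmod_n]; omega),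
        ZMod.card]
      congr 1
      omega
    rw [Finset.sum_congr rfl h1]
    have h2 : ∑ t ∈ univ.erase (0 : ZMod p), t ^ (2 * f) * (1 - t) ^ (3 * f) =
        ∑ t : ZMod p, t ^ (2 * f) * (1 - t) ^ (3 * f) := by
      rw [← Finset.add_sum_erase univ _ (Finset.mem_univ (0 : ZMod p)),
        zero_pow (by omega), zero_mul, zero_add]
    rw [h2]
    have h3 : ∀ t : ZMod p, t ^ (2 * f) * (1 - t) ^ (3 * f) =
        ∑ j ∈ range (3 * f + 1), (-1) ^ j * ((3 * f).choose j : ZMod p) * t ^ (2 * f + j) := by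
      intro t
      have e : (1 - t) ^ (3 * f) = (-t + 1) ^ (3 * f) := by ring
      rw [e, add_pow, Finset.mul_sum]
      refine Finset.sum_congr rfl fun j _ => ?_
      rw [one_pow, mul_one, pow_add, neg_pow]
      ring
    rw [Finset.sum_congr rfl fun t _ => h3 t, Finset.sum_comm]
    refine Finset.sum_eq_zero fun j hj => ?_
    rw [Finset.mem_range] at hj
    rw [← Finset.mul_sum, FiniteField.sum_pow_lt_card_sub_one, mul_zero]
    rw [ZMod.card]
    omega
  have hβ2 : β ^ 2 = 0 := by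
    obtain ⟨x, hx⟩ := exists_lp_of_rd_eq_zero hβ0
    rw [hx, sq (lp p x), lp_mul_lp]
  refine ⟨a - b' - c', b' - c', ?_, ?_⟩
  · rw [← hn, hb', hc']
    ring
  · have hsum : α + β = 2 * ((a - b' - c' : ℤ) : ZMod (p ^ 2)) := by
      rw [hα', hβ', hb', hc', hζs]
      push_cast
      ring
    have hprod : α * β = (p : ZMod (p ^ 2)) := by
      have hn' := congrArg (fun z : ℤ => (z : ZMod (p ^ 2))) hn
      push_cast at hn'
      rw [hα', hβ', ← hn']
      have e : ((a : ZMod (p ^ 2)) + b * ζ + c * ζ ^ 2) * ((a : ZMod (p ^ 2)) + b * ζ ^ 2 + c * ζ) =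
          (a : ZMod (p ^ 2)) ^ 2 + b ^ 2 * ζ ^ 3 + c ^ 2 * ζ ^ 3 + (a * b + a * c) * (ζ + ζ ^ 2) +
          b * c * (ζ ^ 2 + ζ * ζ ^ 3) := by ring
      rw [e, hζ3, hζs]
      ring
    have h1 : α = 2 * ((a - b' - c' : ℤ) : ZMod (p ^ 2)) - β := by rw [← hsum]; ring
    rw [h1] at hprod ⊢
    linear_combination (-2 : ZMod (p ^ 2)) * hprod - hβ2

end Pool.Agent.helper60.DA
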